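import Pool.Agent.Q280.TMInverse

set_option autoImplicit false

namespace Pool.Agent.Results.MP_ff738c_co.HankelBounded

open PowerSeries

/-- `t_n`: the sum of the binary digits of `n`, modulo `2` -/
def t (n : ℕ) : ZMod 2 := ((Nat.digits 2 n).sum : ZMod 2)

/-- `F(X) = ∑ t_n X^n` over `𝔽₂` (`t_0 = 0`) -/
noncomputable def F : PowerSeries (ZMod 2) := PowerSeries.mk t

/-- `G` is a compositional inverse of `F`: `G(0) = 0` and `F(G(X)) = X` -/
def IsInv (G : PowerSeries (ZMod 2)) : Prop :=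
  constantCoeff G = 0 ∧ F.subst G = (X : PowerSeries (ZMod 2))

/-- the coefficient `c_n` of `G`, regarded as the integer `0` or `1` -/
noncomputable def c (G : PowerSeries (ZMod 2)) (n : ℕ) : ℤ := ((coeff n G).val : ℤ)

/-- `H_{p,n}`: the determinant of the `n × n` matrix with `(i,j)` entry `c_{p+i+j-1}`,
`1 ≤ i, j ≤ n` -/
noncomputable def H (G : PowerSeries (ZMod 2)) (p n : ℕ) : ℤ :=
  Matrix.det (Matrix.of fun i j : Fin n => c G (p + ((i : ℕ) + 1) + ((j : ℕ) + 1) - 1))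

theorem H_eq (G : PowerSeries (ZMod 2)) (hG : IsInv G) (p n : ℕ) :
    H G p n = Pool.Agent.Q280.TMHankel.D Pool.Agent.Q280.TMSeq.A (p + 2) n := by
  unfold H Pool.Agent.Q280.TMHankel.D
  congr 1
  ext i j
  simp only [Matrix.of_apply]
  rw [show p + ((i : ℕ) + 1) + ((j : ℕ) + 1) - 1 = p + i + j + 1 by omega]
  unfold c
  rw [Pool.Agent.Q280.TMInverse.G_coeff G hG.1 hG.2 (p + i + j + 1) (by omega),
    show p + (i : ℕ) + j + 1 + 1 = p + 2 + i + j by ring]
  rw [Pool.Agent.Q280.TMSeq.A]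
  rcases Pool.Agent.Q280.TMSeq.r_01 ((p + 2 + (i : ℕ) + j) / 2) with h | h
  · rw [h]; simp
  · rw [h]; simp; rfl

/-- The compositional inverse exists, and all the Hankel determinants are `-1`, `0` or `1`. -/
theorem result : (∃ G, IsInv G) ∧ ∀ G, IsInv G → ∀ p n : ℕ, 1 ≤ n →
    H G p n = -1 ∨ H G p n = 0 ∨ H G p n = 1 := by
  refine ⟨Pool.Agent.Q280.TMInverse.exists_inverse, ?_⟩
  intro G hG p n _
  rw [H_eq G hG]
  have := (Pool.Agent.Q280.TMSeq.all_small n (p + 2)).2.2.1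
  unfold Pool.Agent.Q280.TMSeq.Sm at this
  tauto

end Pool.Agent.Results.MP_ff738c_co.HankelBounded
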